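import Mathlib

set_option autoImplicit false

namespace Pool.Agent.H626Z.SignRank

open Matrix

/-- rational parts of the entries -/
def Ba : Matrix (Fin 10) (Fin 12) ℤ :=
  !![1, 0, 0, 0, 0, 1, 1, 0, 1, -1, 1, 1;
     0, 1, 0, 0, 1, 0, 0, -1, -1, 1, 1, -1;
     0, 0, 1, -1, -1, -1, 0, 0, 0, 1, -1, 1;
     1, 0, 1, 0, -1, 0, 1, 0, 1, 0, 0, 1;
     1, 1, 0, 0, 1, 1, 0, -1, 0, 0, 1, 0;
     0, 1, 1, -1, 0, -1, 0, 0, -1, 1, 0, 0;
     1, 1, 1, -1, 0, 0, 1, -1, 0, 1, 1, 1;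
     1, 0, 0, 1, 0, 1, 1, 0, 1, -1, 1, 0;
     0, 1, 0, 0, 1, 0, -1, -1, -1, 1, 0, -1;
     0, 0, 1, -1, -1, -1, 0, 1, 0, 0, -1, 1]

/-- coefficients of `t` in the entries -/
def Bb : Matrix (Fin 10) (Fin 12) ℤ :=
  !![0, 0, 0, 0, 0, 0, 0, 1, 0, -1, 0, 0;
     0, 0, 0, 1, 0, 0, 0, 0, 0, 0, 0, -1;
     0, 0, 0, 0, 0, 0, -1, 0, 0, 0, -1, 0;
     0, 1, 0, -1, 1, 0, -1, 0, -1, 0, 0, 0;
     0, 0, 1, 0, -1, -1, 1, 1, 0, 0, 0, 0;
     1, 0, 0, 1, 0, 1, 0, -1, 1, 0, 0, 0;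
     0, 0, 0, 1, 0, 0, -1, 1, 0, -1, -1, -1;
     0, 1, 0, -1, 1, 0, 0, 0, -1, 0, 1, 0;
     0, 0, 1, 0, -1, -1, 1, 0, 0, 1, 0, 0;
     1, 0, 0, 0, 0, 1, 0, -1, 1, 0, 0, 1]

noncomputable def t : ℝ := (Real.sqrt 5 - 1) / 2

lemma t_sq : t * t = 1 - t := by
  have h : Real.sqrt 5 * Real.sqrt 5 = 5 := Real.mul_self_sqrt (by norm_num)
  unfold t
  linear_combination h / 4

lemma no_rat (a : ℚ) : a * a + a - 1 ≠ 0 := by
  intro h
  have h5 : Irrational (Real.sqrt 5) := by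
    simpa using (Nat.Prime.irrational_sqrt (p := 5) (by norm_num))
  have h1 : ((2 * a + 1 : ℚ) : ℝ) ^ 2 = 5 := by
    have : (2 * a + 1) ^ 2 = 5 := by linear_combination 4 * h
    exact_mod_cast this
  apply h5
  refine ⟨|2 * a + 1|, ?_⟩
  rw [← h1, Real.sqrt_sq_eq_abs]
  push_cast
  rfl

lemma comb_eq_zero (a b : ℤ) : (a : ℝ) + b * t = 0 ↔ a = 0 ∧ b = 0 := by
  constructor
  · intro h
    by_cases hb : b = 0
    · subst hb
      simp at h
      exact ⟨h, rfl⟩
    · exfalso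
      have hb' : (b : ℝ) ≠ 0 := by exact_mod_cast hb
      have ht : t = ((-(a : ℚ) / b : ℚ) : ℝ) := by
        push_cast
        field_simp
        linear_combination h
      apply no_rat (-(a : ℚ) / b)
      have h2 := t_sq
      rw [ht] at h2
      have : (-(a : ℚ) / b) * (-(a : ℚ) / b) = 1 - (-(a : ℚ) / b) := by exact_mod_cast h2
      linear_combination this
  · rintro ⟨rfl, rfl⟩
    simp

noncomputable def B : Matrix (Fin 10) (Fin 12) ℝ := fun i j => (Ba i j : ℝ) + Bb i j * t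

noncomputable def P : Matrix (Fin 10) (Fin 3) ℝ :=
  !![1, 0, 0; 0, 1, 0; 0, 0, 1; 1, t, 1; 1, 1, t; t, 1, 1; 1, 1, 1; 1, t, 0; 0, 1, t; t, 0, 1]

noncomputable def L : Matrix (Fin 3) (Fin 12) ℝ :=
  !![1, 0, 0, 0, 0, 1, 1, t, 1, -1 - t, 1, 1;
     0, 1, 0, t, 1, 0, 0, -1, -1, 1, 1, -1 - t;
     0, 0, 1, -1, -1, -1, -t, 0, 0, 1, -1 - t, 1]

lemma B_eq : B = P * L := by
  have h := t_sq
  ext i j
  rw [Matrix.mul_apply, Fin.sum_univ_three]
  fin_cases i <;> fin_cases j <;> simp [B, Ba, Bb, P, L] <;> linarith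

lemma rank_B_le : B.rank ≤ 3 := by
  rw [B_eq]
  exact (Matrix.rank_mul_le_left _ _).trans (Matrix.rank_le_width _)

/-- the zero pattern -/
def Z (i : Fin 10) (j : Fin 12) : Prop := Ba i j = 0 ∧ Bb i j = 0

instance (i : Fin 10) (j : Fin 12) : Decidable (Z i j) := by unfold Z; infer_instance

lemma B_zero (i : Fin 10) (j : Fin 12) : B i j = 0 ↔ Z i j := comb_eq_zero _ _

lemma rank_ge {K : Type*} [Field K] (M : Matrix (Fin 10) (Fin 12) K)
    (h : ∀ i j, M i j = 0 ↔ Z i j) : 3 ≤ M.rank := by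
  have h00 : M 0 0 ≠ 0 := by rw [Ne, h]; decide
  have h11 : M 1 1 ≠ 0 := by rw [Ne, h]; decide
  have h22 : M 2 2 ≠ 0 := by rw [Ne, h]; decide
  have h01 : M 0 1 = 0 := by rw [h]; decide
  have h02 : M 0 2 = 0 := by rw [h]; decide
  have h10 : M 1 0 = 0 := by rw [h]; decide
  have h12 : M 1 2 = 0 := by rw [h]; decide
  have h20 : M 2 0 = 0 := by rw [h]; decide
  have h21 : M 2 1 = 0 := by rw [h]; decide
  have hd : (M.submatrix (![0, 1, 2] : Fin 3 → Fin 10) (![0, 1, 2] : Fin 3 → Fin 12)).det ≠ 0 := by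
    rw [Matrix.det_fin_three]
    simp [h01, h02, h10, h12, h20, h21, h00, h11, h22]
  have := Matrix.rank_of_det_ne_zero hd
  have h2 := Matrix.rank_submatrix_le M (![0, 1, 2] : Fin 3 → Fin 10) (![0, 1, 2] : Fin 3 → Fin 12)
  rw [this] at h2
  simpa using h2

lemma row_rel {K : Type*} [Field K] (M : Matrix (Fin 10) (Fin 12) K)
    (h : ∀ i j, M i j = 0 ↔ Z i j) (hr : M.rank ≤ 3) (i : Fin 10) (j : Fin 12) :
    M i j = M i 0 / M 0 0 * M 0 j + M i 1 / M 1 1 * M 1 j + M i 2 / M 2 2 * M 2 j := by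
  have h00 : M 0 0 ≠ 0 := by rw [Ne, h]; decide
  have h11 : M 1 1 ≠ 0 := by rw [Ne, h]; decide
  have h22 : M 2 2 ≠ 0 := by rw [Ne, h]; decide
  have h01 : M 0 1 = 0 := by rw [h]; decide
  have h02 : M 0 2 = 0 := by rw [h]; decide
  have h10 : M 1 0 = 0 := by rw [h]; decide
  have h12 : M 1 2 = 0 := by rw [h]; decide
  have h20 : M 2 0 = 0 := by rw [h]; decide
  have h21 : M 2 1 = 0 := by rw [h]; decide
  have hd : (M.submatrix (![0, 1, 2, i] : Fin 4 → Fin 10) (![0, 1, 2, j] : Fin 4 → Fin 12)).det = 0 := by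
    by_contra hd
    have := Matrix.rank_of_det_ne_zero hd
    have h2 := Matrix.rank_submatrix_le M (![0, 1, 2, i] : Fin 4 → Fin 10)
      (![0, 1, 2, j] : Fin 4 → Fin 12)
    rw [this] at h2
    simp at h2
    omega
  rw [Matrix.det_succ_row_zero, Fin.sum_univ_four] at hd
  simp [Matrix.det_fin_three, Fin.succAbove, h01, h02, h10, h12, h20, h21] at hd
  field_simp
  linear_combination hd

lemma det0 {K : Type*} [Field K] {a b c d e f g h i u v w : K} (hw : w ≠ 0)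
    (h1 : a * u + b * v + c * w = 0) (h2 : d * u + e * v + f * w = 0)
    (h3 : g * u + h * v + i * w = 0) :
    a * (e * i - f * h) - b * (d * i - f * g) + c * (d * h - e * g) = 0 := by
  have : w * (a * (e * i - f * h) - b * (d * i - f * g) + c * (d * h - e * g)) = 0 := by
    linear_combination (d * h - e * g) * h1 + (b * g - a * h) * h2 + (a * e - b * d) * h3
  exact (mul_eq_zero.mp this).resolve_left hw

lemma key {x3 y3 z3 x4 y4 z4 x5 y5 z5 x6 y6 z6 x7 y7 y8 z8 x9 z9 : ℚ}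
    (n3 : x3 ≠ 0) (n3' : y3 ≠ 0) (n4 : x4 ≠ 0) (n4' : z4 ≠ 0) (n5 : y5 ≠ 0) (n5' : x5 ≠ 0)
    (n6x : x6 ≠ 0) (n6y : y6 ≠ 0) (n6z : z6 ≠ 0) (n7 : x7 ≠ 0) (n8 : y8 ≠ 0) (n9 : z9 ≠ 0)
    (e048 : y4 * z8 - z4 * y8 = 0) (e056 : y5 * z6 - z5 * y6 = 0)
    (e136 : x3 * z6 - z3 * x6 = 0) (e159 : x5 * z9 - z5 * x9 = 0)
    (e237 : x3 * y7 - y3 * x7 = 0) (e246 : x4 * y6 - y4 * x6 = 0)
    (e349 : x3 * (y4 * z9 - z4 * 0) - y3 * (x4 * z9 - z4 * x9) + z3 * (x4 * 0 - y4 * x9) = 0)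
    (e358 : x3 * (y5 * z8 - z5 * y8) - y3 * (x5 * z8 - z5 * 0) + z3 * (x5 * y8 - y5 * 0) = 0)
    (e457 : x4 * (y5 * 0 - z5 * y7) - y4 * (x5 * 0 - z5 * x7) + z4 * (x5 * y7 - y5 * x7) = 0)
    (hne : x3 * y6 - y3 * x6 ≠ 0) : False := by
  obtain ⟨a, rfl⟩ : ∃ a, y3 = a * x3 * y6 / x6 := ⟨y3 * x6 / (x3 * y6), by field_simp⟩
  obtain ⟨b, rfl⟩ : ∃ b, z4 = b * x4 * z6 / x6 := ⟨z4 * x6 / (x4 * z6), by field_simp⟩
  obtain ⟨c, rfl⟩ : ∃ c, x5 = c * y5 * x6 / y6 := ⟨x5 * y6 / (y5 * x6), by field_simp⟩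
  obtain rfl : z3 = x3 * z6 / x6 := by field_simp; linear_combination -e136
  obtain rfl : y4 = x4 * y6 / x6 := by field_simp; linear_combination -e246
  obtain rfl : z5 = y5 * z6 / y6 := by field_simp; linear_combination -e056
  obtain rfl : y7 = a * x7 * y6 / x6 := by
    have : x3 * (y7 - a * x7 * y6 / x6) = 0 := by linear_combination e237
    have := (mul_eq_zero.mp this).resolve_left n3
    linear_combination this
  obtain rfl : z8 = b * y8 * z6 / y6 := by
    have : (x4 * y6 / x6) * (z8 - b * y8 * z6 / y6) = 0 := by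
      rw [← e048]; field_simp
    have := (mul_eq_zero.mp this).resolve_left (by positivity)
    linear_combination this
  obtain rfl : x9 = c * z9 * x6 / z6 := by
    have : (y5 * z6 / y6) * (c * z9 * x6 / z6 - x9) = 0 := by
      rw [← e159]; field_simp
    have := (mul_eq_zero.mp this).resolve_left (by positivity)
    linear_combination -this
  have q1 : 1 - a + a * b * c - c = 0 := by
    have : (x3 * x4 * z9 * y6 / x6) * (1 - a + a * b * c - c) = 0 := by
      rw [← e349]; field_simp; ring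
    exact (mul_eq_zero.mp this).resolve_left (by positivity)
  have q2 : b - 1 - a * b * c + c = 0 := by
    have : (x3 * y5 * y8 * z6 / y6) * (b - 1 - a * b * c + c) = 0 := by
      rw [← e358]; field_simp; ring
    exact (mul_eq_zero.mp this).resolve_left (by positivity)
  have q3 : 1 - a + a * b * c - b = 0 := by
    have : (x4 * y5 * x7 * z6 / x6) * (1 - a + a * b * c - b) = 0 := by
      rw [← e457]; field_simp; ring
    exact (mul_eq_zero.mp this).resolve_left (by positivity)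
  have hcb : c = b := by linear_combination q3 - q1
  have hba : b = a := by linear_combination q1 + q2
  subst hcb
  subst hba
  have ha : c ≠ 1 := by
    rintro rfl
    apply hne
    field_simp
    ring
  apply no_rat c
  have : (c - 1) * (c * c + c - 1) = 0 := by linear_combination q1
  exact (mul_eq_zero.mp this).resolve_left (sub_ne_zero.mpr ha)

theorem no_rational (Q : Matrix (Fin 10) (Fin 12) ℚ)
    (h : ∀ i j, Q i j = 0 ↔ Z i j) (hr : Q.rank ≤ 3) : False := by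
  have R := row_rel Q h hr
  have nz : ∀ i j, ¬ Z i j → Q i j ≠ 0 := fun i j hz h0 => hz ((h i j).1 h0)
  have zz : ∀ i j, Z i j → Q i j = 0 := fun i j hz => (h i j).2 hz
  have h00 := nz 0 0 (by decide)
  have h11 := nz 1 1 (by decide)
  have h22 := nz 2 2 (by decide)
  set x : Fin 10 → ℚ := fun i => Q i 0 / Q 0 0 with hx
  set y : Fin 10 → ℚ := fun i => Q i 1 / Q 1 1 with hy
  set z : Fin 10 → ℚ := fun i => Q i 2 / Q 2 2 with hz
  have R' : ∀ i j, Z i j → x i * Q 0 j + y i * Q 1 j + z i * Q 2 j = 0 := fun i j hij => by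
    have := R i j
    rw [zz i j hij] at this
    exact this.symm
  have nx : ∀ i, ¬ Z i 0 → x i ≠ 0 := fun i hi => div_ne_zero (nz i 0 hi) h00
  have ny : ∀ i, ¬ Z i 1 → y i ≠ 0 := fun i hi => div_ne_zero (nz i 1 hi) h11
  have nzz : ∀ i, ¬ Z i 2 → z i ≠ 0 := fun i hi => div_ne_zero (nz i 2 hi) h22
  have zx : ∀ i, Z i 0 → x i = 0 := fun i hi => by simp [hx, zz i 0 hi]
  have zy : ∀ i, Z i 1 → y i = 0 := fun i hi => by simp [hy, zz i 1 hi]
  have zz' : ∀ i, Z i 2 → z i = 0 := fun i hi => by simp [hz, zz i 2 hi]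
  have D : ∀ i k l j, Z i j → Z k j → Z l j → ¬ Z 2 j →
      x i * (y k * z l - z k * y l) - y i * (x k * z l - z k * x l)
        + z i * (x k * y l - y k * x l) = 0 := fun i k l j h1 h2 h3 h4 =>
    det0 (nz 2 j h4) (R' i j h1) (R' k j h2) (R' l j h3)
  have two0 : ∀ k l j, Z 0 j → Z k j → Z l j → ¬ Z 2 j → y k * z l - z k * y l = 0 := by
    intro k l j h1 h2 h3 h4
    have a1 := R' k j h2
    have a2 := R' l j h3
    rw [zz 0 j h1] at a1 a2
    have : Q 2 j * (y k * z l - z k * y l) = 0 := by linear_combination y k * a2 - y l * a1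
    exact (mul_eq_zero.mp this).resolve_left (nz 2 j h4)
  have two1 : ∀ k l j, Z 1 j → Z k j → Z l j → ¬ Z 2 j → x k * z l - z k * x l = 0 := by
    intro k l j h1 h2 h3 h4
    have a1 := R' k j h2
    have a2 := R' l j h3
    rw [zz 1 j h1] at a1 a2
    have : Q 2 j * (x k * z l - z k * x l) = 0 := by linear_combination x k * a2 - x l * a1
    exact (mul_eq_zero.mp this).resolve_left (nz 2 j h4)
  have two2 : ∀ k l j, Z 2 j → Z k j → Z l j → ¬ Z 1 j → x k * y l - y k * x l = 0 := by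
    intro k l j h1 h2 h3 h4
    have a1 := R' k j h2
    have a2 := R' l j h3
    rw [zz 2 j h1] at a1 a2
    have : Q 1 j * (x k * y l - y k * x l) = 0 := by linear_combination x k * a2 - x l * a1
    exact (mul_eq_zero.mp this).resolve_left (nz 1 j h4)
  have e349 := D 3 4 9 9 (by decide) (by decide) (by decide) (by decide)
  have e358 := D 3 5 8 10 (by decide) (by decide) (by decide) (by decide)
  have e457 := D 4 5 7 11 (by decide) (by decide) (by decide) (by decide)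
  rw [zy 9 (by decide)] at e349
  rw [zx 8 (by decide)] at e358
  rw [zz' 7 (by decide)] at e457
  refine key (nx 3 (by decide)) (ny 3 (by decide)) (nx 4 (by decide)) (nzz 4 (by decide))
    (ny 5 (by decide)) (nx 5 (by decide)) (nx 6 (by decide)) (ny 6 (by decide)) (nzz 6 (by decide))
    (nx 7 (by decide)) (ny 8 (by decide)) (nzz 9 (by decide))
    (two0 4 8 3 (by decide) (by decide) (by decide) (by decide))
    (two0 5 6 4 (by decide) (by decide) (by decide) (by decide))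
    (two1 3 6 5 (by decide) (by decide) (by decide) (by decide))
    (two1 5 9 6 (by decide) (by decide) (by decide) (by decide))
    (two2 3 7 7 (by decide) (by decide) (by decide) (by decide))
    (two2 4 6 8 (by decide) (by decide) (by decide) (by decide))
    e349 e358 e457 ?_
  intro hne
  have a1 := R' 3 7 (by decide)
  have a2 := R 6 7
  rw [zz 2 7 (by decide)] at a1 a2
  have n67 := nz 6 7 (by decide)
  have : x 3 * Q 6 7 = 0 := by
    change Q 6 7 = x 6 * Q 0 7 + y 6 * Q 1 7 + z 6 * 0 at a2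
    rw [a2]
    linear_combination x 6 * a1 + Q 1 7 * hne
  exact (mul_ne_zero (nx 3 (by decide)) n67) this

end Pool.Agent.H626Z.SignRank
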